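import Pool.Agent.R481.S2.Divisor
import Pool.Agent.Run7.h684.LD.Def

/-!
# The divisor bound (piece S_dv)
-/

set_option autoImplicit false

open Run7.h684.LD

namespace Run7.h824.LD

/-- **S_dv** -/
theorem t_dv : S_dv := by
  intro k
  induction k with
  | zero =>
    intro ε hε
    refine ⟨1, zero_le_one, fun n hn => ?_⟩
    have h1 : (1 : ℝ) ≤ (n : ℝ) ^ ε := Real.one_le_rpow (by exact_mod_cast hn) hε.le
    have h2 : (dv 0 n : ℝ) ≤ 1 := by
      unfold dv
      split_ifs <;> simp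
    linarith
  | succ k ih =>
    intro ε hε
    obtain ⟨C, hC, hb⟩ := ih (ε / 2) (by positivity)
    obtain ⟨C', hC', hb'⟩ := Pool.Agent.R481.S2.divisor_bound_real (ε / 2) (by positivity)
    refine ⟨C * C', by positivity, fun n hn => ?_⟩
    have hn0 : (0 : ℝ) < n := by exact_mod_cast hn
    have h1 : (dv (k + 1) n : ℝ) = ∑ m ∈ n.divisors, (dv k m : ℝ) := by
      conv_lhs => unfold dv
      push_cast
      rfl
    have h2 : ∀ m ∈ n.divisors, (dv k m : ℝ) ≤ C * (n : ℝ) ^ (ε / 2) := by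
      intro m hm
      have hmd := Nat.dvd_of_mem_divisors hm
      have hm1 : 1 ≤ m := Nat.pos_of_mem_divisors hm
      have hmn : m ≤ n := Nat.le_of_dvd hn hmd
      refine (hb m hm1).trans ?_
      gcongr
    calc (dv (k + 1) n : ℝ) = ∑ m ∈ n.divisors, (dv k m : ℝ) := h1
      _ ≤ ∑ _m ∈ n.divisors, C * (n : ℝ) ^ (ε / 2) := Finset.sum_le_sum h2
      _ = (n.divisors.card : ℝ) * (C * (n : ℝ) ^ (ε / 2)) := by rw [Finset.sum_const, nsmul_eq_mul]
      _ ≤ (C' * (n : ℝ) ^ (ε / 2)) * (C * (n : ℝ) ^ (ε / 2)) := by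
        have := hb' n (by omega)
        gcongr
      _ = C * C' * ((n : ℝ) ^ (ε / 2) * (n : ℝ) ^ (ε / 2)) := by ring
      _ = C * C' * (n : ℝ) ^ ε := by
        rw [← Real.rpow_add hn0, add_halves]

end Run7.h824.LD
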