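import Pool.Agent.Run7.h824.LD.AvgA
import Pool.Agent.Run7.h684.LD.Def

/-!
# Perron's formula for functions with a Laplace transform (piece S_perron)
-/

set_option autoImplicit false

open MeasureTheory Filter Topology Set
open Pool.Agent.H295R2 Run7.h684.LD

namespace Run7.h824.LD

noncomputable section

variable {E : ℝ → ℂ} {F : ℂ → ℂ} {θ : ℝ}

lemma pr_nice (h : Pr E F θ) : ∃ C : ℝ, Nice E C (3 / 2) 0 := by
  obtain ⟨C, hC, hb⟩ := h.cru (3 / 2) (by norm_num)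
  refine ⟨C, ⟨h.meas, fun u => ?_, h.zero⟩⟩
  rcases lt_or_ge u 0 with hu | hu
  · rw [h.zero u hu, norm_zero]
    positivity
  · exact hb u hu

/-- the integrand -/
def HH (F : ℂ → ℂ) (η x : ℝ) (s : ℂ) : ℂ := F s / s * phi η s ^ 2 * Complex.exp (s * x)

lemma norm_ge {s : ℂ} (hs : 1 / 4 ≤ s.re) : 1 / 4 ≤ ‖s‖ :=
  hs.trans ((le_abs_self _).trans (Complex.abs_re_le_norm s))

/-- the crude bound of the integrand -/
lemma HH_bound (h : Pr E F θ) {η x σ : ℝ} (hη : 0 < η) (hη1 : η ≤ 1) (hσ : θ < σ) :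
    ∃ B : ℝ, ∀ s : ℂ, σ ≤ s.re → s.re ≤ 2 → ‖HH F η x s‖ ≤ B * (1 + |s.im|) ^ (-(3 / 2 : ℝ)) := by
  obtain ⟨Cf, hCf0, hf⟩ := h.gro σ (1 / 2) hσ (by norm_num)
  have h0 := h.h0
  refine ⟨(4 * Cf) * (1000 / η ^ 2) * Real.exp (2 * |x|), fun s hs1 hs2 => ?_⟩
  have h14 : 1 / 4 ≤ s.re := by linarith
  have hre : 0 < s.re := by linarith
  have hn := norm_ge h14
  have h1 : ‖F s / s‖ ≤ 4 * (Cf * (1 + |s.im|) ^ (1 / 2 : ℝ)) := by
    rw [norm_div, div_le_iff₀ (by linarith)]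
    have := hf s hs1 hs2
    have h5 : 0 ≤ Cf * (1 + |s.im|) ^ (1 / 2 : ℝ) := by positivity
    nlinarith
  have h2 := norm_phi_sq_le hη hη1 hre hs2
  have h3 : ‖Complex.exp (s * x)‖ ≤ Real.exp (2 * |x|) := by
    rw [Complex.norm_exp]
    apply Real.exp_le_exp.mpr
    simp only [Complex.mul_re, Complex.ofReal_re, Complex.ofReal_im, mul_zero, sub_zero]
    have h5 := le_abs_self x
    have h6 := abs_nonneg x
    nlinarith
  unfold HH
  rw [norm_mul, norm_mul, norm_pow]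
  have e1 : (1 + |s.im|) ^ (-2 : ℝ) * (1 + |s.im|) ^ (1 / 2 : ℝ) = (1 + |s.im|) ^ (-(3 / 2 : ℝ)) := by
    rw [← Real.rpow_add (by positivity)]
    norm_num
  calc ‖F s / s‖ * ‖phi η s‖ ^ 2 * ‖Complex.exp (s * x)‖
      ≤ (4 * (Cf * (1 + |s.im|) ^ (1 / 2 : ℝ))) * ((1000 / η ^ 2) * (1 + |s.im|) ^ (-2 : ℝ)) *
          Real.exp (2 * |x|) := by gcongr
    _ = (4 * Cf) * (1000 / η ^ 2) * Real.exp (2 * |x|) *
          ((1 + |s.im|) ^ (-2 : ℝ) * (1 + |s.im|) ^ (1 / 2 : ℝ)) := by ring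
    _ = _ := by rw [e1]

/-- the double average as an integral on a line to the left of `1` -/
lemma avg2_eq (h : Pr E F θ) {η x σ : ℝ} (hη : 0 < η) (hη1 : η ≤ 1) (hσ : θ < σ) (hσ2 : σ ≤ 2) :
    avg η (avg η E) x = ∫ ξ : ℝ, HH F η x (σ + 2 * Real.pi * ξ * Complex.I) := by
  obtain ⟨C, hn⟩ := pr_nice h
  have hC := hn.C_nonneg
  have h0 := h.h0
  have hn1 := nice_avg hn (by norm_num) hη hη1
  have hn2 := nice_avg hn1 (by norm_num) hη hη1
  have hLap2 : ∀ s : ℂ, 3 / 2 < s.re → Lap (avg η (avg η E)) s = Lap E s * phi η s ^ 2 := by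
    intro s hs
    rw [Lap_avgA hn1 (by norm_num) hη hs, Lap_avgA hn (by norm_num) hη hs]
    ring
  set k2 := avg η (avg η E) with hk2
  have hLint : Integrable (fun ξ : ℝ => Lap k2 ((2:ℝ) + 2 * Real.pi * ξ * Complex.I)) := by
    refine scale_integrable (H := Lap k2) ?_
    refine vertical_integrable (B := 2 * C * (1000 / η ^ 2)) ?_ ?_
    · intro s hs
      exact (hn2.Lap_differentiableAt (by rw [hs]; norm_num)).continuousAt
    · intro s hs
      have hs0 : 3 / 2 < s.re := by rw [hs]; norm_num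
      rw [hLap2 s hs0, norm_mul, norm_pow]
      have h1 : ‖Lap E s‖ ≤ 2 * C := by
        have h2 := hn.norm_Lap_le hs0
        rw [hs, mul_zero, Real.exp_zero, mul_one] at h2
        refine h2.trans (le_of_eq ?_)
        norm_num
        ring
      have h2 := norm_phi_sq_le hη hη1 (by linarith : 0 < s.re) hs.le
      have h3 : (1 + |s.im|) ^ (-2 : ℝ) ≤ (1 + |s.im|) ^ (-(3 / 2 : ℝ)) :=
        Real.rpow_le_rpow_of_exponent_le (by linarith [abs_nonneg s.im]) (by norm_num)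
      calc ‖Lap E s‖ * ‖phi η s‖ ^ 2 ≤ (2 * C) *
            ((1000 / η ^ 2) * (1 + |s.im|) ^ (-2 : ℝ)) := by gcongr
        _ ≤ (2 * C) * ((1000 / η ^ 2) * (1 + |s.im|) ^ (-(3 / 2 : ℝ))) := by gcongr
        _ = _ := by ring
  have hinv := inversionA hn2 (by norm_num : (3 / 2 : ℝ) < 2) (avg_cont hn1 η) hLint x
  have hre2 : ∀ ξ : ℝ, (((2:ℝ) : ℂ) + 2 * Real.pi * ξ * Complex.I).re = 2 := by
    intro ξ; simp
  have e1 : k2 x = ∫ ξ : ℝ, HH F η x ((2:ℝ) + 2 * Real.pi * ξ * Complex.I) := by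
    rw [hinv]
    refine integral_congr_ae (Eventually.of_forall fun ξ => ?_)
    simp only
    unfold HH
    have h1 := hre2 ξ
    set s : ℂ := ((2:ℝ) : ℂ) + 2 * Real.pi * ξ * Complex.I with hs
    have hs0 : s ≠ 0 := by
      intro h2
      rw [h2] at h1
      simp at h1
    rw [hLap2 s (by rw [h1]; norm_num), ← h.lap s (by rw [h1]; norm_num), mul_div_cancel_left₀ _ hs0]
  obtain ⟨B, hB⟩ := HH_bound (x := x) h hη hη1 hσ
  have hd : ∀ s : ℂ, σ ≤ s.re → s.re ≤ 2 → DifferentiableAt ℂ (HH F η x) s := by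
    intro s hs1 hs2
    have hs0 : s ≠ 0 := by rintro rfl; simp at hs1; linarith
    unfold HH
    have e1 : DifferentiableAt ℂ F s := h.dif s (by linarith)
    have e2 := phi_differentiableAt hη hs0
    have e3 : DifferentiableAt ℂ (fun z => F z / z) s := e1.div differentiableAt_id hs0
    exact (e3.mul (e2.pow 2)).mul (by fun_prop)
  have hshift := contour_shift hσ2 hd hB
  rw [e1, scale_integral, scale_integral, hshift]

/-- **S_perron** -/
theorem t_perron : S_perron := by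
  intro E F θ h σ hσ
  have h0 := h.h0
  have h1 := h.h1
  rcases lt_or_ge 1 σ with hσ1 | hσ1
  · exact h.cru σ hσ1
  set σ' : ℝ := (θ + σ) / 2 with hσ'
  set ε : ℝ := (σ - σ') / 2 with hε
  have hε0 : 0 < ε := by rw [hε, hσ']; linarith
  have hε1 : 2 * ε ≤ 1 := by rw [hε, hσ']; linarith
  have hεσ : ε ≤ σ := by rw [hε, hσ']; linarith
  have h1' : θ < σ' := by rw [hσ']; linarith
  have h2' : σ' ≤ 2 := by rw [hσ']; linarith
  have h14 : 1 / 4 ≤ σ' := by linarith
  obtain ⟨Cf, hCf0, hCf⟩ := h.gro σ' ε h1' hε0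
  obtain ⟨C1, hC10, hC1⟩ := h.fin ε hε0
  obtain ⟨C0, hn⟩ := pr_nice h
  set I0 : ℝ := ∫ ξ : ℝ, (1 + |2 * Real.pi * ξ|) ^ (-(1 + ε)) with hI0
  have hI0' : 0 ≤ I0 := integral_nonneg fun ξ => by positivity
  set K : ℝ := 5 * 550 * Cf * (2 * Real.exp 1) ^ (2 * ε) with hK
  have hK0 : 0 ≤ K := by positivity
  refine ⟨K * I0 + C1 * Real.exp ε, by positivity, fun u hu => ?_⟩
  set η : ℝ := Real.exp (-(u + 1)) / 2 with hη
  have hη0 : 0 < η := by positivity
  have hηe : 2 * η = Real.exp (-(u + 1)) := by rw [hη]; ring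
  have hexp1 : Real.exp (-(u + 1)) ≤ 1 := Real.exp_le_one_iff.2 (by linarith)
  have hη1 : η ≤ 1 := by linarith
  -- the average is close to the function
  have hnear : ‖avg η (avg η E) u - E u‖ ≤ C1 * Real.exp (ε * (u + 1)) := by
    refine avg_near (fun b c => (avg_cont hn η).intervalIntegrable b c) hη0 fun v hv0 hv1 => ?_
    refine avg_near (fun b c => ii hn b c) hη0 fun w hw0 hw1 => ?_
    exact hC1 (u + 1) u (u + v + w) hu (by linarith) (by linarith) (by linarith)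
  -- the integral
  have hform := avg2_eq (x := u) h hη0 hη1 h1' h2'
  have hpt : ∀ ξ : ℝ, ‖HH F η u (σ' + 2 * Real.pi * ξ * Complex.I)‖ ≤
      (K * Real.exp (σ * u)) * (1 + |2 * Real.pi * ξ|) ^ (-(1 + ε)) := by
    intro ξ
    set s : ℂ := σ' + 2 * Real.pi * ξ * Complex.I with hs
    have hsre : s.re = σ' := line_re σ' ξ
    have hsim : s.im = 2 * Real.pi * ξ := line_im σ' ξ
    set T : ℝ := 1 + |2 * Real.pi * ξ| with hT
    have hT0 : 0 < T := by rw [hT]; positivity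
    unfold HH
    rw [norm_mul, norm_mul, norm_pow, norm_div]
    have a1 : 1 / ‖s‖ ≤ 5 * T ^ (-(1:ℝ)) := by
      rw [Real.rpow_neg hT0.le, Real.rpow_one]
      have hs0 : 1 / 4 ≤ ‖s‖ := norm_ge (by rw [hsre]; exact h14)
      have hs1 : |2 * Real.pi * ξ| ≤ ‖s‖ := by rw [← hsim]; exact Complex.abs_im_le_norm s
      rw [← div_eq_mul_inv, div_le_div_iff₀ (by linarith) hT0]
      rw [hT]; linarith
    have a2 : ‖phi η s‖ ^ 2 ≤ 550 * (η * T) ^ (-(2 * ε)) := by
      have := norm_phi_pow (a := 2 * ε) hη0 hη1 (s := s) (by rw [hsre]; exact h14) (by rw [hsre]; exact h2')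
        (by positivity) hε1
      rw [hsim] at this
      exact this
    have a3 : ‖Complex.exp (s * u)‖ = Real.exp (σ' * u) := by
      rw [Complex.norm_exp]
      simp only [Complex.mul_re, Complex.ofReal_re, Complex.ofReal_im, mul_zero, sub_zero, hsre]
    have a4 : ‖F s‖ ≤ Cf * T ^ ε := by
      have := hCf s (by rw [hsre]) (by rw [hsre]; exact h2')
      rw [hsim] at this
      exact this
    rw [a3]
    have e1 : (η * T) ^ (-(2 * ε)) = (2 * Real.exp 1) ^ (2 * ε) * Real.exp (2 * ε * u) * T ^ (-(2 * ε)) := by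
      have e2 : η = (2 * Real.exp 1 * Real.exp u)⁻¹ := by
        rw [hη, mul_assoc, ← Real.exp_add, mul_inv, ← Real.exp_neg, neg_add_rev, neg_add_rev]
        ring_nf
      rw [Real.mul_rpow hη0.le hT0.le, e2, Real.inv_rpow (by positivity), ← Real.rpow_neg (by positivity), neg_neg,
        Real.mul_rpow (by positivity) (by positivity), ← Real.exp_mul, mul_comm u]
    have e2 : Real.exp (σ' * u) * Real.exp (2 * ε * u) = Real.exp (σ * u) := by
      rw [← Real.exp_add]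
      congr 1
      rw [hε]; ring
    have e3 : T ^ (-(1:ℝ)) * T ^ (-(2 * ε)) * T ^ ε = T ^ (-(1 + ε)) := by
      rw [← Real.rpow_add hT0, ← Real.rpow_add hT0]
      congr 1; ring
    calc ‖F s‖ / ‖s‖ * ‖phi η s‖ ^ 2 * Real.exp (σ' * u)
        = ‖F s‖ * (1 / ‖s‖) * ‖phi η s‖ ^ 2 * Real.exp (σ' * u) := by ring
      _ ≤ (Cf * T ^ ε) * (5 * T ^ (-(1:ℝ))) * (550 * (η * T) ^ (-(2 * ε))) * Real.exp (σ' * u) := by gcongr
      _ = (5 * 550 * Cf * (2 * Real.exp 1) ^ (2 * ε)) * (Real.exp (σ' * u) * Real.exp (2 * ε * u)) *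
            (T ^ (-(1:ℝ)) * T ^ (-(2 * ε)) * T ^ ε) := by
        rw [e1]; ring
      _ = _ := by rw [e2, e3]
  have hI := (integrable_decay' (a := 1 + ε) (by linarith)).const_mul (K * Real.exp (σ * u))
  have hint : ‖avg η (avg η E) u‖ ≤ K * I0 * Real.exp (σ * u) := by
    rw [hform]
    calc _ ≤ ∫ ξ : ℝ, (K * Real.exp (σ * u)) * (1 + |2 * Real.pi * ξ|) ^ (-(1 + ε)) :=
          norm_integral_le_of_norm_le hI (Eventually.of_forall hpt)
      _ = _ := by rw [integral_const_mul]; ring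
  have hlast : Real.exp (ε * (u + 1)) ≤ Real.exp ε * Real.exp (σ * u) := by
    rw [← Real.exp_add]
    refine Real.exp_le_exp.2 ?_
    nlinarith
  have hsplit : E u = avg η (avg η E) u - (avg η (avg η E) u - E u) := by ring
  calc ‖E u‖ = ‖avg η (avg η E) u - (avg η (avg η E) u - E u)‖ := by rw [← hsplit]
    _ ≤ K * I0 * Real.exp (σ * u) + C1 * Real.exp (ε * (u + 1)) :=
        (norm_sub_le _ _).trans (add_le_add hint hnear)
    _ ≤ K * I0 * Real.exp (σ * u) + C1 * (Real.exp ε * Real.exp (σ * u)) := by gcongr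
    _ = _ := by ring

end

end Run7.h824.LD
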