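import Pool.Agent.H295R2.M

/-!
# Averages and Laplace transforms of functions of exponential growth

The lemmas of `Pool.Agent.H295R2.Avg` for functions `k` with `‖k u‖ ≤ C e^(a u)`, `0 ≤ a`.
-/

set_option autoImplicit false

open MeasureTheory Filter Topology Set
open Pool.Agent.H295R2

namespace Run7.h824.LD

noncomputable section

variable {k : ℝ → ℂ} {C a u₀ η : ℝ}

lemma ii (h : Nice k C a u₀) (b c : ℝ) : IntervalIntegrable k volume b c := by
  have h1 : Continuous fun u : ℝ => C * Real.exp (a * u) := by fun_prop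
  refine (h1.intervalIntegrable b c).mono_fun h.meas.aestronglyMeasurable
    (Eventually.of_forall fun u => ?_)
  show ‖k u‖ ≤ ‖C * Real.exp (a * u)‖
  rw [Real.norm_eq_abs]
  exact (h.bound u).trans (le_abs_self _)

lemma avg_cont (h : Nice k C a u₀) (η : ℝ) : Continuous (avg η k) := by
  unfold avg
  refine continuous_const.mul ?_
  have h1 : ∀ u : ℝ, ∫ v in (0:ℝ)..η, k (u + v) = (∫ v in (0:ℝ)..(u + η), k v) - ∫ v in (0:ℝ)..u, k v := by
    intro u
    rw [intervalIntegral.integral_comp_add_left (fun v => k v) u, add_zero,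
      intervalIntegral.integral_interval_sub_left (ii h _ _) (ii h _ _)]
  simp_rw [h1]
  have h2 := intervalIntegral.continuous_primitive (μ := volume) (fun a b => ii h a b) 0
  exact (h2.comp (continuous_id.add continuous_const)).sub h2

lemma nice_avg (h : Nice k C a u₀) (ha : 0 ≤ a) (hη : 0 < η) (hη1 : η ≤ 1) :
    Nice (avg η k) (C * Real.exp a) a (u₀ - η) where
  meas := (avg_cont h η).measurable
  bound := by
    intro u
    have hC := h.C_nonneg
    have h1 : ∀ v ∈ Set.uIoc (0:ℝ) η, ‖k (u + v)‖ ≤ C * Real.exp a * Real.exp (a * u) := by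
      intro v hv
      rw [uIoc_of_le hη.le] at hv
      refine (h.bound _).trans ?_
      rw [mul_assoc, ← Real.exp_add]
      refine mul_le_mul_of_nonneg_left (Real.exp_le_exp.2 ?_) hC
      nlinarith [hv.1, hv.2]
    have h2 : ‖∫ v in (0:ℝ)..η, k (u + v)‖ ≤ C * Real.exp a * Real.exp (a * u) * |η - 0| :=
      intervalIntegral.norm_integral_le_of_norm_le_const h1
    rw [sub_zero, abs_of_pos hη] at h2
    unfold Pool.Agent.H295R2.avg
    rw [norm_mul, norm_div, norm_one, Complex.norm_real, Real.norm_of_nonneg hη.le]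
    calc 1 / η * ‖∫ v in (0:ℝ)..η, k (u + v)‖ ≤ 1 / η * (C * Real.exp a * Real.exp (a * u) * η) := by gcongr
      _ = _ := by field_simp
  zero := by
    intro u hu
    unfold Pool.Agent.H295R2.avg
    have : ∫ v in (0:ℝ)..η, k (u + v) = ∫ v in (0:ℝ)..η, (0:ℂ) := by
      apply intervalIntegral.integral_congr
      intro v hv
      rw [uIcc_of_le hη.le] at hv
      exact h.zero _ (by linarith [hv.2])
    rw [this]
    simp

lemma Lap_avgA (h : Nice k C a u₀) (ha : 0 ≤ a) (hη : 0 < η) {s : ℂ}
    (hs : a < s.re) : Lap (Pool.Agent.H295R2.avg η k) s = phi η s * Lap k s := by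
  have hs0 : s ≠ 0 := by rintro rfl; simp at hs; linarith
  unfold Lap Pool.Agent.H295R2.avg
  have h1 : ∀ u : ℝ, (1 / (η : ℂ) * ∫ v in (0:ℝ)..η, k (u + v)) * Complex.exp (-(s * u)) =
      (1 / (η : ℂ)) * ∫ v in Ioc (0:ℝ) η, k (u + v) * Complex.exp (-(s * u)) := by
    intro u
    rw [intervalIntegral.integral_of_le hη.le, mul_assoc, ← integral_mul_const]
  simp_rw [h1]
  rw [integral_const_mul]
  have hmeas : AEStronglyMeasurable (Function.uncurry fun (u v : ℝ) => k (u + v) * Complex.exp (-(s * u)))
      (volume.prod (volume.restrict (Ioc (0:ℝ) η))) := by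
    refine Measurable.aestronglyMeasurable ?_
    refine Measurable.mul (h.meas.comp (measurable_fst.add measurable_snd)) ?_
    have : Continuous (fun p : ℝ × ℝ => Complex.exp (-(s * p.1))) := by fun_prop
    exact this.measurable
  have hint : Integrable (Function.uncurry fun (u v : ℝ) => k (u + v) * Complex.exp (-(s * u)))
      (volume.prod (volume.restrict (Ioc (0:ℝ) η))) := by
    rw [integrable_prod_iff' hmeas]
    refine ⟨Eventually.of_forall fun v => h.shift_integrable (by simpa using hs) v, ?_⟩
    simp only [Function.uncurry_apply_pair]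
    simp_rw [Nice.shift_norm]
    have : Continuous (fun v : ℝ => Real.exp (s.re * v) * ∫ u : ℝ, ‖k u * Complex.exp (-(s * u))‖) := by
      fun_prop
    exact (this.integrableOn_Icc (a := 0) (b := η)).mono_set Ioc_subset_Icc_self
  rw [integral_integral_swap hint]
  simp_rw [h.Lap_shift s]
  rw [integral_mul_const, ← intervalIntegral.integral_of_le hη.le, integral_exp_mul_complex hs0]
  unfold phi Lap
  have hη' : (η : ℂ) ≠ 0 := by exact_mod_cast hη.ne'
  simp only [Complex.ofReal_zero, mul_zero, Complex.exp_zero]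
  field_simp

/-- the average is close to a constant -/
lemma avg_near (h : ∀ b c : ℝ, IntervalIntegrable k volume b c) (hη : 0 < η) {u B : ℝ} {c : ℂ}
    (hB : ∀ v : ℝ, 0 ≤ v → v ≤ η → ‖k (u + v) - c‖ ≤ B) : ‖avg η k u - c‖ ≤ B := by
  have hη' : (η : ℂ) ≠ 0 := by exact_mod_cast hη.ne'
  have h0 : IntervalIntegrable (fun v => k (u + v)) volume 0 η := by
    have := (h (u + 0) (u + η)).comp_add_left u
    simpa using this
  have h1 : avg η k u - c = (1 / (η : ℂ)) * ∫ v in (0:ℝ)..η, (k (u + v) - c) := by
    rw [intervalIntegral.integral_sub h0 intervalIntegrable_const, intervalIntegral.integral_const, mul_sub]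
    unfold avg
    rw [sub_zero, Complex.real_smul]
    congr 1
    field_simp
  have h2 : ‖∫ v in (0:ℝ)..η, (k (u + v) - c)‖ ≤ B * |η - 0| := by
    refine intervalIntegral.norm_integral_le_of_norm_le_const fun v hv => ?_
    rw [uIoc_of_le hη.le] at hv
    exact hB v hv.1.le hv.2
  rw [sub_zero, abs_of_pos hη] at h2
  rw [h1, norm_mul, norm_div, norm_one, Complex.norm_real, Real.norm_of_nonneg hη.le]
  calc 1 / η * ‖∫ v in (0:ℝ)..η, (k (u + v) - c)‖ ≤ 1 / η * (B * η) := by gcongr
    _ = B := by field_simp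

open FourierTransform

/-- Fourier inversion -/
lemma inversionA {c : ℝ} (h : Nice k C a u₀) (hc : a < c) (hcont : Continuous k)
    (hint : Integrable (fun ξ : ℝ => Lap k (c + 2 * Real.pi * ξ * Complex.I))) (u : ℝ) :
    k u = ∫ ξ : ℝ, Lap k (c + 2 * Real.pi * ξ * Complex.I) *
      Complex.exp ((c + 2 * Real.pi * ξ * Complex.I) * u) := by
  set g : ℝ → ℂ := fun u => k u * Complex.exp (-(c * u)) with hg
  have hgi : Integrable g := h.integrable (by simpa using hc)
  have hgF : Integrable (𝓕 g) := by
    refine hint.congr (Eventually.of_forall fun ξ => ?_)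
    exact (fourier_eq_Lap k c ξ).symm
  have hgc : ContinuousAt g u := by
    have : Continuous g := by rw [hg]; fun_prop
    exact this.continuousAt
  have h1 := hgi.fourierInv_fourier_eq hgF hgc
  rw [Real.fourierInv_eq'] at h1
  have h2 : k u = g u * Complex.exp (c * u) := by
    rw [hg]
    simp only
    rw [mul_assoc, ← Complex.exp_add]
    simp
  rw [h2, ← h1, ← integral_mul_const]
  refine integral_congr_ae (Eventually.of_forall fun ξ => ?_)
  simp only [smul_eq_mul]
  rw [fourier_eq_Lap k c ξ]
  have h3 : Complex.exp (↑(2 * Real.pi * inner ℝ ξ u) * Complex.I) * Complex.exp (c * u) =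
      Complex.exp ((c + 2 * Real.pi * ξ * Complex.I) * u) := by
    rw [← Complex.exp_add]
    congr 1
    simp only [RCLike.inner_apply, conj_trivial]
    push_cast
    ring
  linear_combination (Lap k (c + 2 * Real.pi * ξ * Complex.I)) * h3

end

end Run7.h824.LD
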