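import Pool.Agent.Run7.h684.LD.Def2
import Pool.Agent.Run7.h824.LD.Dv
import Pool.Agent.Run7.h613.LD.LapD
import Pool.Agent.Run7.h299.LD.LapP

/-!
# The error term of the divisor problem satisfies the structure `Pr` (piece S_inst)
-/

set_option autoImplicit false

open MeasureTheory Filter Topology Set Polynomial
open Pool.Agent.H295R2 (Nice Lap)
open Run7.h684.LD

namespace Run7.h824.LD

noncomputable section

/-- polynomials grow slower than exponentials -/
lemma poly_bound (Q : ℂ[X]) {ε : ℝ} (hε : 0 < ε) :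
    ∃ C : ℝ, 0 ≤ C ∧ ∀ t : ℝ, 0 ≤ t → ‖Q.eval (t : ℂ)‖ ≤ C * Real.exp (ε * t) := by
  induction Q using Polynomial.induction_on' with
  | add p q hp hq =>
    obtain ⟨a, ha, hpa⟩ := hp
    obtain ⟨b, hb, hqb⟩ := hq
    refine ⟨a + b, by positivity, fun t ht => ?_⟩
    rw [eval_add, add_mul]
    exact (norm_add_le _ _).trans (add_le_add (hpa t ht) (hqb t ht))
  | monomial n c =>
    refine ⟨‖c‖ * (n.factorial / ε ^ n), by positivity, fun t ht => ?_⟩
    rw [eval_monomial, norm_mul, norm_pow, Complex.norm_real, Real.norm_of_nonneg ht, mul_assoc]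
    refine mul_le_mul_of_nonneg_left ?_ (norm_nonneg _)
    have h1 := Real.pow_div_factorial_le_exp (ε * t) (by positivity) n
    rw [mul_pow, div_le_iff₀ (by positivity)] at h1
    rw [div_mul_eq_mul_div, le_div_iff₀ (by positivity)]
    linarith

lemma measD (k : ℕ) : Measurable fun u : ℝ => if u < 0 then (0 : ℂ) else ((D k (Real.exp u) : ℝ) : ℂ) := by
  refine Measurable.ite measurableSet_Iio measurable_const ?_
  refine Complex.measurable_ofReal.comp ?_
  have h1 : Measurable fun N : ℕ => ∑ n ∈ Finset.Icc 1 N, (dv k n : ℝ) := measurable_from_nat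
  exact h1.comp (Nat.measurable_floor.comp Real.measurable_exp)

lemma D_nonneg (k : ℕ) (x : ℝ) : 0 ≤ D k x := Finset.sum_nonneg fun _ _ => Nat.cast_nonneg _

lemma niceD (k : ℕ) {σ : ℝ} (hσ : 1 < σ) : ∃ C : ℝ, Nice (fun u : ℝ => if u < 0 then (0 : ℂ) else
    ((D k (Real.exp u) : ℝ) : ℂ)) C σ 0 := by
  obtain ⟨C, hC, hb⟩ := (Run7.h613.LD.t_lapD t_dv k).1 σ hσ
  refine ⟨C, measD k, fun u => ?_, fun u hu => if_pos hu⟩
  rcases lt_or_ge u 0 with hu | hu
  · rw [if_pos hu, norm_zero]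
    positivity
  · rw [if_neg (not_lt.2 hu), Complex.norm_real, Real.norm_of_nonneg (D_nonneg _ _)]
    refine (hb _ (Real.one_le_exp hu)).trans (le_of_eq ?_)
    rw [← Real.exp_mul, mul_comm u]

lemma dD (k : ℕ) {ε : ℝ} (hε : 0 < ε) : ∃ C : ℝ, 0 ≤ C ∧ ∀ V u v : ℝ, 0 ≤ u → u ≤ v → v ≤ V →
    v - u ≤ Real.exp (-V) → |D k (Real.exp v) - D k (Real.exp u)| ≤ C * Real.exp (ε * V) := by
  obtain ⟨C, hC, hb⟩ := t_dv k ε hε
  refine ⟨C, hC, fun V u v hu huv hvV hd => ?_⟩
  have hfl : ⌊Real.exp u⌋₊ ≤ ⌊Real.exp v⌋₊ := Nat.floor_le_floor (Real.exp_le_exp.2 huv)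
  have h1 : D k (Real.exp v) - D k (Real.exp u) =
      ∑ n ∈ Finset.Ioc ⌊Real.exp u⌋₊ ⌊Real.exp v⌋₊, (dv k n : ℝ) := by
    have h2 := Finset.sum_Ioc_consecutive (fun n => (dv k n : ℝ)) (Nat.zero_le ⌊Real.exp u⌋₊) hfl
    have h3 : ∀ N : ℕ, Finset.Icc 1 N = Finset.Ioc 0 N := by
      intro N
      ext n
      rw [Finset.mem_Icc, Finset.mem_Ioc]
      omega
    unfold D
    rw [h3, h3, ← h2]
    ring
  have hev : Real.exp v - Real.exp u ≤ 1 := by
    have h2 := Real.add_one_le_exp (-(v - u))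
    have h3 : Real.exp v * Real.exp (-(v - u)) = Real.exp u := by
      rw [← Real.exp_add]
      ring_nf
    have h4 : Real.exp v * (v - u) ≤ Real.exp V * Real.exp (-V) := by
      have := Real.exp_le_exp.2 hvV
      have h5 : 0 ≤ v - u := by linarith
      gcongr
    rw [← Real.exp_add, add_neg_cancel, Real.exp_zero] at h4
    nlinarith [Real.exp_pos v]
  have hcard : (Finset.Ioc ⌊Real.exp u⌋₊ ⌊Real.exp v⌋₊).card ≤ 1 := by
    rw [Nat.card_Ioc]
    have h2 : (⌊Real.exp v⌋₊ : ℝ) ≤ Real.exp v := Nat.floor_le (Real.exp_pos v).le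
    have h3 : Real.exp u < ⌊Real.exp u⌋₊ + 1 := Nat.lt_floor_add_one _
    have h4 : (⌊Real.exp v⌋₊ : ℝ) < ⌊Real.exp u⌋₊ + 2 := by linarith
    have h5 : ⌊Real.exp v⌋₊ < ⌊Real.exp u⌋₊ + 2 := by exact_mod_cast h4
    omega
  rw [h1, abs_of_nonneg (Finset.sum_nonneg fun n _ => Nat.cast_nonneg _)]
  have h2 : ∀ n ∈ Finset.Ioc ⌊Real.exp u⌋₊ ⌊Real.exp v⌋₊, (dv k n : ℝ) ≤ C * Real.exp (ε * V) := by
    intro n hn
    rw [Finset.mem_Ioc] at hn
    have hn1 : 1 ≤ n := by omega
    refine (hb n hn1).trans ?_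
    have h3 : (n : ℝ) ≤ Real.exp V := by
      have h4 : (n : ℝ) ≤ ⌊Real.exp v⌋₊ := by exact_mod_cast hn.2
      exact (h4.trans (Nat.floor_le (Real.exp_pos v).le)).trans (Real.exp_le_exp.2 hvV)
    have h4 : (n : ℝ) ^ ε ≤ Real.exp V ^ ε := Real.rpow_le_rpow (Nat.cast_nonneg _) h3 hε.le
    rw [← Real.exp_mul, mul_comm V] at h4
    gcongr
  have h3 : 0 ≤ C * Real.exp (ε * V) := by positivity
  calc ∑ n ∈ Finset.Ioc ⌊Real.exp u⌋₊ ⌊Real.exp v⌋₊, (dv k n : ℝ)
      ≤ (Finset.Ioc ⌊Real.exp u⌋₊ ⌊Real.exp v⌋₊).card • (C * Real.exp (ε * V)) := Finset.sum_le_card_nsmul _ _ _ h2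
    _ = ((Finset.Ioc ⌊Real.exp u⌋₊ ⌊Real.exp v⌋₊).card : ℝ) * (C * Real.exp (ε * V)) := nsmul_eq_mul _ _
    _ ≤ 1 * (C * Real.exp (ε * V)) := by
      refine mul_le_mul_of_nonneg_right ?_ h3
      exact_mod_cast hcard
    _ = _ := one_mul _

lemma dP (P : ℂ[X]) {ε : ℝ} (hε : 0 < ε) : ∃ C : ℝ, 0 ≤ C ∧ ∀ V u v : ℝ, 0 ≤ u → u ≤ v → v ≤ V →
    v - u ≤ Real.exp (-V) →
    ‖(Real.exp v : ℂ) * P.eval (v : ℂ) - (Real.exp u : ℂ) * P.eval (u : ℂ)‖ ≤ C * Real.exp (ε * V) := by
  obtain ⟨C, hC, hb⟩ := poly_bound (P + derivative P) hε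
  refine ⟨C, hC, fun V u v hu huv hvV hd => ?_⟩
  have hder : ∀ x ∈ Icc u v, HasDerivWithinAt (fun t : ℝ => (Real.exp t : ℂ) * P.eval (t : ℂ))
      ((Real.exp x : ℂ) * (P + derivative P).eval (x : ℂ)) (Icc u v) x := by
    intro x _
    refine HasDerivAt.hasDerivWithinAt ?_
    have h1 : HasDerivAt (fun t : ℝ => (Real.exp t : ℂ)) (Real.exp x : ℂ) x := (Real.hasDerivAt_exp x).ofReal_comp
    have h2 : HasDerivAt (fun t : ℝ => P.eval (t : ℂ)) ((derivative P).eval (x : ℂ)) x :=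
      (P.hasDerivAt (x : ℂ)).comp_ofReal
    refine (h1.mul h2).congr_deriv ?_
    rw [eval_add]
    ring
  have hbound : ∀ x ∈ Icc u v, ‖(Real.exp x : ℂ) * (P + derivative P).eval (x : ℂ)‖ ≤
      Real.exp V * (C * Real.exp (ε * V)) := by
    intro x hx
    rw [norm_mul, Complex.norm_real, Real.norm_of_nonneg (Real.exp_pos x).le]
    have h1 := hb x (hu.trans hx.1)
    have h2 : x ≤ V := hx.2.trans hvV
    have h3 : Real.exp (ε * x) ≤ Real.exp (ε * V) := Real.exp_le_exp.2 (by gcongr)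
    have h4 : Real.exp x ≤ Real.exp V := Real.exp_le_exp.2 h2
    refine mul_le_mul h4 (h1.trans ?_) (norm_nonneg _) (Real.exp_pos V).le
    gcongr
  have h1 := Convex.norm_image_sub_le_of_norm_hasDerivWithin_le hder hbound (convex_Icc u v)
    (left_mem_Icc.2 huv) (right_mem_Icc.2 huv)
  refine h1.trans ?_
  rw [Real.norm_of_nonneg (by linarith : 0 ≤ v - u)]
  calc Real.exp V * (C * Real.exp (ε * V)) * (v - u) ≤ Real.exp V * (C * Real.exp (ε * V)) * Real.exp (-V) := by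
        gcongr
    _ = (Real.exp V * Real.exp (-V)) * (C * Real.exp (ε * V)) := by ring
    _ = _ := by rw [← Real.exp_add, add_neg_cancel, Real.exp_zero, one_mul]

/-- the polar part times `s` is bounded away from the real axis -/
lemma RP_bound (P : ℂ[X]) : ∃ C : ℝ, 0 ≤ C ∧ ∀ s : ℂ, 1 ≤ |s.im| → ‖s * RP P s‖ ≤ C := by
  refine ⟨∑ j ∈ P.support, 2 * (‖P.coeff j‖ * j.factorial), by positivity, fun s hs => ?_⟩
  unfold RP
  rw [Polynomial.sum, Finset.mul_sum]
  refine (norm_sum_le _ _).trans (Finset.sum_le_sum fun j _ => ?_)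
  have h1 : 1 ≤ ‖s - 1‖ := by
    have := Complex.abs_im_le_norm (s - 1)
    simp only [Complex.sub_im, Complex.one_im, sub_zero] at this
    linarith
  have h2 : ‖s‖ ≤ 2 * ‖s - 1‖ := by
    have h3 : ‖s‖ ≤ ‖s - 1‖ + ‖(1 : ℂ)‖ := by
      have := norm_add_le (s - 1) 1
      rwa [sub_add_cancel] at this
    rw [norm_one] at h3
    linarith
  have h3 : ‖s - 1‖ ≤ ‖s - 1‖ ^ (j + 1) := by
    have := pow_le_pow_right₀ h1 (Nat.le_add_left 1 j)
    rwa [pow_one] at this
  have h4 : ‖s‖ ≤ 2 * ‖s - 1‖ ^ (j + 1) := by linarith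
  rw [norm_mul, norm_div, norm_mul, norm_pow, Complex.norm_natCast, mul_div_assoc']
  rw [div_le_iff₀ (by positivity)]
  have h5 : 0 ≤ ‖P.coeff j‖ * j.factorial := by positivity
  nlinarith

/-- **S_inst** -/
theorem t_inst : S_inst := by
  intro θ h0 h1 hL k P H hPH
  obtain ⟨Cd2, hNd2⟩ := niceD k (σ := 3 / 2) (by norm_num)
  refine ⟨h0, h1, ?_, fun u hu => if_pos hu, ?_, ?_, ?_, ?_, ?_⟩
  · -- measurability
    have h2 : EP k P = fun u : ℝ => (if u < 0 then (0 : ℂ) else ((D k (Real.exp u) : ℝ) : ℂ)) -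
        (if u < 0 then (0 : ℂ) else (Real.exp u : ℂ) * P.eval (u : ℂ)) := by
      funext u
      unfold EP
      split_ifs
      · rw [sub_zero]
      · rfl
    rw [h2]
    refine (measD k).sub (Measurable.ite measurableSet_Iio measurable_const ?_)
    have : Continuous fun u : ℝ => (Real.exp u : ℂ) * P.eval (u : ℂ) := by
      refine Continuous.mul (by fun_prop) ?_
      exact P.continuous.comp Complex.continuous_ofReal
    exact this.measurable
  · -- jumps
    intro ε hε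
    obtain ⟨C1, hC1, hb1⟩ := dD k hε
    obtain ⟨C2, hC2, hb2⟩ := dP P hε
    refine ⟨C1 + C2, by positivity, fun V u v hu huv hvV hd => ?_⟩
    have h2 := hb1 V u v hu huv hvV hd
    have h3 := hb2 V u v hu huv hvV hd
    have h4 : EP k P v - EP k P u = ((D k (Real.exp v) - D k (Real.exp u) : ℝ) : ℂ) -
        ((Real.exp v : ℂ) * P.eval (v : ℂ) - (Real.exp u : ℂ) * P.eval (u : ℂ)) := by
      unfold EP
      rw [if_neg (by linarith), if_neg (by linarith)]
      push_cast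
      ring
    rw [h4, add_mul]
    refine (norm_sub_le _ _).trans (add_le_add ?_ h3)
    rw [Complex.norm_real, Real.norm_eq_abs]
    exact h2
  · -- crude bound
    intro σ hσ
    obtain ⟨C1, hn⟩ := niceD k hσ
    obtain ⟨C2, hC2, hb2⟩ := poly_bound P (ε := σ - 1) (by linarith)
    refine ⟨C1 + C2, add_nonneg hn.C_nonneg hC2, fun u hu => ?_⟩
    have h2 := hn.bound u
    simp only [if_neg (not_lt.2 hu)] at h2
    unfold EP
    rw [if_neg (not_lt.2 hu), add_mul]
    refine (norm_sub_le _ _).trans (add_le_add h2 ?_)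
    rw [norm_mul, Complex.norm_real, Real.norm_of_nonneg (Real.exp_pos u).le]
    calc Real.exp u * ‖P.eval (u : ℂ)‖ ≤ Real.exp u * (C2 * Real.exp ((σ - 1) * u)) := by
          have := hb2 u hu
          gcongr
      _ = C2 * (Real.exp u * Real.exp ((σ - 1) * u)) := by ring
      _ = _ := by
        rw [← Real.exp_add]
        ring_nf
  · -- Laplace transform
    intro s hs
    obtain ⟨C1, hn⟩ := niceD k (σ := (1 + s.re) / 2) (by linarith)
    have hi1 := hn.integrable (s := s) (by linarith)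
    obtain ⟨hi2, hl2⟩ := Pool.Agent.Run7.h299.LD.t_lapP P s hs
    have hl1 := (Run7.h613.LD.t_lapD t_dv k).2 s hs
    have hs0 : s ≠ 0 := by
      intro h
      rw [h] at hs
      simp at hs
      linarith
    have hs1 : s ≠ 1 := by
      intro h
      rw [h] at hs
      simp at hs
    have h2 : Lap (EP k P) s = riemannZeta s ^ k / s - RP P s := by
      rw [← hl2, ← hl1, mul_div_cancel_left₀ _ hs0]
      unfold Lap
      rw [← integral_sub hi1 hi2]
      refine integral_congr_ae (Eventually.of_forall fun u => ?_)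
      simp only [EP]
      split_ifs
      · simp
      · ring
    rw [h2, ← hPH.eq s (by linarith) hs1]
  · -- differentiability
    intro s hs
    exact differentiableAt_id.mul (hPH.dif s (by linarith))
  · -- growth
    intro σ ε hσ hε
    obtain ⟨C1, hC1, hz⟩ := hL σ (ε / (k + 1)) hσ (by positivity)
    obtain ⟨C2, hC2, hr⟩ := RP_bound P
    have hcont : ContinuousOn (fun s : ℂ => s * H s) (Icc σ 2 ×ℂ Icc (-1) 1) := by
      intro s hs
      rw [Complex.mem_reProdIm] at hs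
      exact (differentiableAt_id.mul (hPH.dif s (by linarith [hs.1.1]))).continuousAt.continuousWithinAt
    have hcomp : IsCompact (Icc σ 2 ×ℂ Icc (-1 : ℝ) 1) := isCompact_Icc.reProdIm isCompact_Icc
    obtain ⟨C3, hC3⟩ := hcomp.exists_bound_of_continuousOn hcont
    refine ⟨C1 ^ k + C2 + |C3|, by positivity, fun s hs1 hs2 => ?_⟩
    have hT : 1 ≤ (1 + |s.im|) ^ ε := Real.one_le_rpow (by linarith [abs_nonneg s.im]) hε.le
    have hC1k : 0 ≤ C1 ^ k := by positivity
    rcases le_or_gt 1 |s.im| with hi | hi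
    · have hs1' : s ≠ 1 := by
        intro h
        rw [h] at hi
        simp at hi
        linarith
      have hs0 : s ≠ 0 := by
        intro h
        rw [h] at hi
        simp at hi
        linarith
      have h2 : s * H s = riemannZeta s ^ k - s * RP P s := by
        rw [hPH.eq s (by linarith) hs1', mul_sub, mul_div_cancel₀ _ hs0]
      have h3 : ‖riemannZeta s ^ k‖ ≤ C1 ^ k * (1 + |s.im|) ^ ε := by
        rw [norm_pow]
        calc ‖riemannZeta s‖ ^ k ≤ (C1 * (1 + |s.im|) ^ (ε / (k + 1))) ^ k :=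
              pow_le_pow_left₀ (norm_nonneg _) (hz s hs1 hs2 hi) k
          _ = C1 ^ k * (1 + |s.im|) ^ (ε / (k + 1) * k) := by
            rw [mul_pow, ← Real.rpow_natCast ((1 + |s.im|) ^ (ε / (k + 1))), ← Real.rpow_mul (by positivity)]
          _ ≤ C1 ^ k * (1 + |s.im|) ^ ε := by
            refine mul_le_mul_of_nonneg_left (Real.rpow_le_rpow_of_exponent_le (by linarith [abs_nonneg s.im]) ?_) hC1k
            rw [div_mul_eq_mul_div, div_le_iff₀ (by positivity)]
            nlinarith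
      rw [h2]
      have h4 := hr s hi
      calc ‖riemannZeta s ^ k - s * RP P s‖ ≤ C1 ^ k * (1 + |s.im|) ^ ε + C2 := (norm_sub_le _ _).trans (add_le_add h3 h4)
        _ ≤ (C1 ^ k + C2 + |C3|) * (1 + |s.im|) ^ ε := by nlinarith [abs_nonneg C3]
    · have h2 := hC3 s (by
        rw [Complex.mem_reProdIm]
        exact ⟨⟨hs1, hs2⟩, abs_le.1 hi.le⟩)
      have h3 : ‖s * H s‖ ≤ |C3| := h2.trans (le_abs_self _)
      nlinarith [abs_nonneg C3]

end

end Run7.h824.LD
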